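import Mathlib

/-!
Two affinely inequivalent extreme 64-element subsets of the cyclic group of prime order 127.
Both carry a measure with coefficients in {1, -1} (perfect ternary sequences of period 127).
-/

namespace Pool.Agent.Results.MP_6d480e_an.Counterexample

open Finset

/-- `E` is extreme: it is nonempty and carries a measure `mu = sum c x * delta x` with all
`|c x| = 1` (for `x` in `E`) such that `mu * mu~ = |E| * delta 0`, where
`mu~ = sum conj (c x) * delta (-x)` and `*` is convolution, i.e. the product of the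
group algebra, in which `delta a * delta b = delta (a + b)`. -/
def IsExtreme {G : Type} [AddCommGroup G] (E : Finset G) : Prop :=
  E.Nonempty ∧ ∃ c : G → ℂ, (∀ x ∈ E, ‖c x‖ = 1) ∧
    (∑ x ∈ E, AddMonoidAlgebra.single x (c x) : AddMonoidAlgebra ℂ G) *
      (∑ x ∈ E, AddMonoidAlgebra.single (-x) ((starRingEnd ℂ) (c x))) =
      AddMonoidAlgebra.single 0 (E.card : ℂ)

/-- ternary sequence with plus set `P` and minus set `N`, given as bit masks -/
def tern (P N : ℕ) (x : ZMod 127) : ℤ :=
  if P.testBit x.val then 1 else if N.testBit x.val then -1 else 0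

def s1 : ZMod 127 → ℤ :=
  tern 1344805995865497682711014119956729505 334336521290676695986038047043551510

def s2 : ZMod 127 → ℤ :=
  tern 5214322599708593225687228249696897 25307346794523079155530931782772884512

lemma tern_cases (P N : ℕ) (x : ZMod 127) :
    tern P N x = 1 ∨ tern P N x = -1 ∨ tern P N x = 0 := by
  unfold tern
  split_ifs <;> simp

lemma extreme_of (s : ZMod 127 → ℤ) (hs : ∀ x, s x = 1 ∨ s x = -1 ∨ s x = 0)
    (hcard : (univ.filter (fun x => s x ≠ 0)).card = 64)
    (hac : ∀ t : ZMod 127, ∑ y : ZMod 127, s (t + y) * s y = if t = 0 then 64 else 0) :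
    IsExtreme (univ.filter (fun x => s x ≠ 0)) := by
  refine ⟨Finset.card_pos.mp (by omega), fun x => (s x : ℂ), ?_, ?_⟩
  · intro x hx
    have hx' : s x ≠ 0 := (Finset.mem_filter.mp hx).2
    rcases hs x with h | h | h
    · simp [h]
    · simp [h]
    · exact absurd h hx'
  · have e1 : (∑ x ∈ univ.filter (fun x => s x ≠ 0),
        AddMonoidAlgebra.single x ((s x : ℤ) : ℂ) : AddMonoidAlgebra ℂ (ZMod 127)) =
        ∑ x, AddMonoidAlgebra.single x ((s x : ℤ) : ℂ) := by
      apply Finset.sum_subset (Finset.filter_subset _ _)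
      intro x _ hx
      have : s x = 0 := by simpa using hx
      simp [this]
    have e2 : (∑ x ∈ univ.filter (fun x => s x ≠ 0),
        AddMonoidAlgebra.single (-x) ((starRingEnd ℂ) ((s x : ℤ) : ℂ)) :
          AddMonoidAlgebra ℂ (ZMod 127)) =
        ∑ x, AddMonoidAlgebra.single (-x) ((s x : ℤ) : ℂ) := by
      rw [← Finset.sum_subset (Finset.filter_subset (fun x => s x ≠ 0) univ)]
      · apply Finset.sum_congr rfl
        intro x _
        simp
      · intro x _ hx
        have : s x = 0 := by simpa using hx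
        simp [this]
    rw [e1, e2, hcard, Finset.sum_mul_sum, Finset.sum_comm]
    have e3 : ∀ y : ZMod 127, (∑ x : ZMod 127,
        (AddMonoidAlgebra.single x ((s x : ℤ) : ℂ) : AddMonoidAlgebra ℂ (ZMod 127)) *
          AddMonoidAlgebra.single (-y) ((s y : ℤ) : ℂ)) =
        ∑ t : ZMod 127, AddMonoidAlgebra.single t (((s (t + y) * s y : ℤ)) : ℂ) := by
      intro y
      rw [← Equiv.sum_comp (Equiv.addRight y)]
      apply Finset.sum_congr rfl
      intro t _
      rw [AddMonoidAlgebra.single_mul_single]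
      simp
    simp_rw [e3]
    rw [Finset.sum_comm]
    have e4 : ∀ t : ZMod 127, (∑ y : ZMod 127,
        (AddMonoidAlgebra.single t (((s (t + y) * s y : ℤ)) : ℂ) :
          AddMonoidAlgebra ℂ (ZMod 127))) =
        AddMonoidAlgebra.single t (((if t = 0 then 64 else 0 : ℤ)) : ℂ) := by
      intro t
      rw [← hac t, Int.cast_sum]
      exact (map_sum (AddMonoidAlgebra.singleAddHom t) _ _).symm
    simp_rw [e4]
    rw [Finset.sum_eq_single (0 : ZMod 127)]
    · simp
    · intro t _ ht
      simp [ht]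
    · simp

lemma card1 : (univ.filter (fun x => s1 x ≠ 0)).card = 64 := by decide +kernel
lemma card2 : (univ.filter (fun x => s2 x ≠ 0)).card = 64 := by decide +kernel

lemma ac1 : ∀ t : ZMod 127, ∑ y : ZMod 127, s1 (t + y) * s1 y = if t = 0 then 64 else 0 := by
  decide +kernel

lemma ac2 : ∀ t : ZMod 127, ∑ y : ZMod 127, s2 (t + y) * s2 y = if t = 0 then 64 else 0 := by
  decide +kernel

lemma inequiv : ∀ a b : ZMod 127, ∃ x : ZMod 127, s1 x ≠ 0 ∧ (a = 0 ∨ s2 (a * x + b) = 0) := by
  decide +kernel

theorem result : ∃ p : ℕ, p.Prime ∧ ∃ n : ℕ, 1 < n ∧ n < p ∧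
    ∃ E F : Finset (ZMod p), E.card = n ∧ F.card = n ∧ IsExtreme E ∧ IsExtreme F ∧
      ∀ a b : ZMod p, a ≠ 0 → F ≠ E.image (fun x => a * x + b) := by
  refine ⟨127, by norm_num, 64, by norm_num, by norm_num,
    univ.filter (fun x => s1 x ≠ 0), univ.filter (fun x => s2 x ≠ 0), card1, card2,
    extreme_of s1 (tern_cases _ _) card1 ac1, extreme_of s2 (tern_cases _ _) card2 ac2, ?_⟩
  intro a b ha h
  obtain ⟨x, hx, hx2⟩ := inequiv a b
  have hm : a * x + b ∈ (univ.filter (fun x => s1 x ≠ 0)).image (fun x => a * x + b) :=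
    Finset.mem_image.mpr ⟨x, by simpa using hx, rfl⟩
  rw [← h] at hm
  have h2 : s2 (a * x + b) ≠ 0 := (Finset.mem_filter.mp hm).2
  rcases hx2 with h3 | h3
  · exact ha h3
  · exact h2 h3

end Pool.Agent.Results.MP_6d480e_an.Counterexample
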